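import Mathlib
import Pool.Agent.H54.Helly

set_option autoImplicit false
open Finset

namespace Pool.Agent.Results.MP_7bc96b_al.SupportBound

/-- `B χ I`: the vectors `m ∈ ℕ^n ⊆ ℤ^n` with `∑ m_i χ_i = 0` and support inside `I`. -/
def B {X : Type} [AddCommGroup X] {n : ℕ} (χ : Fin n → X) (I : Finset (Fin n)) :
    Set (Fin n → ℤ) :=
  {m | (∀ i, 0 ≤ m i) ∧ ∑ i, m i • χ i = 0 ∧ ∀ i, i ∉ I → m i = 0}

theorem result (X : Type) [AddCommGroup X] [AddGroup.FG X] (n : ℕ) (χ : Fin n → X)
    (I : Finset (Fin n)) :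
    AddSubgroup.closure (B χ I) =
      AddSubgroup.closure (⋃ J ∈ {J : Finset (Fin n) |
        J ⊆ I ∧ J.card ≤ 1 + Module.finrank ℤ X + AddGroup.rank X}, B χ J) := by
  classical
  have : Module.Finite ℤ X := Module.Finite.iff_addGroup_fg.mpr inferInstance
  apply le_antisymm
  swap
  · apply AddSubgroup.closure_mono
    intro m hm
    simp only [Set.mem_iUnion, Set.mem_ofPred_eq] at hm
    obtain ⟨J, ⟨hJ, -⟩, h1, h2, h3⟩ := hm
    exact ⟨h1, h2, fun i hi => h3 i fun h => hi (hJ h)⟩
  rw [AddSubgroup.closure_le]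
  rintro x ⟨hx0, hx, hxI⟩
  set M := AddSubgroup.closure (⋃ J ∈ {J : Finset (Fin n) |
        J ⊆ I ∧ J.card ≤ 1 + Module.finrank ℤ X + AddGroup.rank X}, B χ J) with hM
  set U := univ.filter (fun i => x i ≠ 0) with hU
  have hUI : U ⊆ I := fun i hi => by
    by_contra h
    exact (mem_filter.mp hi).2 (hxI i h)
  -- every relation with small support inside `U` lies in `M`
  have small : ∀ T ⊆ U, T.card ≤ AddGroup.rank X + 1 → ∀ z : Fin n → ℤ, ∑ i, z i • χ i = 0 →
      (∀ i, i ∉ T → z i = 0) → z ∈ M := by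
    intro T hT hc z hz hzT
    obtain ⟨V, hV, hVc, k, hk, m', hm', he⟩ := Pool.Agent.H54.Helly.cara χ (U \ T) x
      (fun i _ => hx0 i)
    have hdis : Disjoint T V := disjoint_sdiff.mono_right hV
    let w : Fin n → ℤ := fun i => (if i ∈ T then k * x i else 0) + (if i ∈ V then m' i else 0)
    have hw0 : ∀ i, 0 ≤ w i := fun i => add_nonneg
      (by split_ifs; exacts [mul_nonneg hk.le (hx0 i), le_rfl])
      (by split_ifs with h; exacts [hm' i h, le_rfl])
    have hw1 : ∀ i ∈ T, 1 ≤ w i := fun i hi => by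
      have h1 : 0 < x i := lt_of_le_of_ne (hx0 i) (mem_filter.mp (hT hi)).2.symm
      have h2 : 0 < k * x i := mul_pos hk h1
      simp only [w, hi, if_true, disjoint_left.mp hdis hi, if_false]
      omega
    have hw2 : ∀ i, i ∉ T ∪ V → w i = 0 := fun i hi => by
      rw [mem_union, not_or] at hi
      simp [w, hi.1, hi.2]
    have hw3 : ∑ i, w i • χ i = 0 := by
      have h1 : ∑ i ∈ U, x i • χ i = 0 := by
        rw [← hx, hU, sum_filter]
        refine sum_congr rfl fun i _ => ?_
        split_ifs with h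
        · rfl
        · rw [not_not.mp h, zero_smul]
      simp only [w, add_smul, ite_smul, zero_smul, sum_add_distrib, sum_ite_mem, univ_inter,
        mul_smul, ← smul_sum, ← he, ← smul_add]
      rw [add_comm, sum_sdiff hT, h1, smul_zero]
    have hB : ∀ m ∈ B χ (T ∪ V), m ∈ M := fun m hm => AddSubgroup.subset_closure (by
      simp only [Set.mem_iUnion, Set.mem_ofPred_eq]
      refine ⟨T ∪ V, ⟨union_subset (hT.trans hUI) (hV.trans (sdiff_subset.trans hUI)), ?_⟩, hm⟩
      have := card_union_le T V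
      omega)
    set N : ℤ := ∑ i, |z i| with hN
    have hN0 : 0 ≤ N := sum_nonneg fun i _ => abs_nonneg _
    have h1 : z + N • w ∈ M := hB _ ⟨fun i => ?_, ?_, fun i hi => ?_⟩
    · have h2 : N • w ∈ M := M.zsmul_mem (hB w ⟨hw0, hw3, hw2⟩) N
      simpa using M.sub_mem h1 h2
    · simp only [Pi.add_apply, Pi.smul_apply, smul_eq_mul]
      by_cases hi : i ∈ T
      · have h3 : |z i| ≤ N := single_le_sum (f := fun i => |z i|) (fun i _ => abs_nonneg _)
          (mem_univ i)
        have h4 := neg_abs_le (z i)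
        nlinarith [hw1 i hi]
      · rw [hzT i hi, zero_add]; exact mul_nonneg hN0 (hw0 i)
    · simp only [Pi.add_apply, Pi.smul_apply, smul_eq_mul, add_smul, mul_smul, sum_add_distrib,
        ← smul_sum, hz, hw3, smul_zero, add_zero]
    · simp only [Pi.add_apply, Pi.smul_apply, hw2 i hi, smul_zero, add_zero]
      exact hzT i fun h => hi (mem_union_left _ h)
  obtain ⟨G, hGc, hG⟩ := AddGroup.rank_spec X
  let gen : Fin (AddGroup.rank X) → X := fun k => (G.equivFinOfCardEq hGc).symm k
  have hgen : ∀ i, χ i ∈ Submodule.span ℤ (Set.range gen) := fun i => by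
    have h1 : Set.range gen = G := by
      ext y
      constructor
      · rintro ⟨k, rfl⟩; exact ((G.equivFinOfCardEq hGc).symm k).2
      · intro hy; exact ⟨G.equivFinOfCardEq hGc ⟨y, hy⟩, by simp [gen]⟩
    rw [h1, ← Submodule.mem_toAddSubgroup, Submodule.span_int_eq_addSubgroupClosure, hG]
    trivial
  refine Pool.Agent.H54.Helly.of_local M x fun p hp => ?_
  obtain ⟨S, hS, hSc, c, hc, h⟩ := Pool.Agent.H54.Helly.loc gen χ hgen p hp U
  choose! t ht using h
  refine ⟨c, hc, ?_⟩
  let ρ : Fin n → Fin n → ℤ := fun j i => (if i = j then c else 0) - (if i ∈ S then t j i else 0)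
  have hρ : ∀ j ∈ U, ∑ i, ρ j i • χ i = 0 := fun j hj => by
    simp only [ρ, sub_smul, ite_smul, zero_smul, sum_sub_distrib, sum_ite_eq', mem_univ, if_true,
      sum_ite_mem, univ_inter, ht j hj, sub_self]
  have hρM : ∀ j ∈ U, ρ j ∈ M := fun j hj => small (insert j S) (insert_subset hj hS)
    ((card_insert_le _ _).trans (by omega)) _ (hρ j hj) fun i hi => by
      rw [mem_insert, not_or] at hi
      simp [ρ, hi.1, hi.2]
  have h1 : ∑ j ∈ U, x j • ρ j ∈ M := M.sum_mem fun j hj => M.zsmul_mem (hρM j hj) _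
  have h2 : c • x - ∑ j ∈ U, x j • ρ j ∈ M := by
    refine small S hS (by omega) _ ?_ fun i hi => ?_
    · simp only [Pi.sub_apply, Pi.smul_apply, Finset.sum_apply, smul_eq_mul, sub_smul, mul_smul,
        sum_sub_distrib, ← smul_sum, hx, smul_zero, sum_smul]
      rw [sum_comm, zero_sub, neg_eq_zero]
      exact sum_eq_zero fun j hj => by rw [← smul_sum, hρ j hj, smul_zero]
    · simp only [Pi.sub_apply, Pi.smul_apply, Finset.sum_apply, smul_eq_mul, ρ, hi, if_false,
        sub_zero, mul_ite, mul_zero, sum_ite_eq]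
      split_ifs with h
      · ring
      · have : x i = 0 := by simpa [hU] using h
        simp [this]
  simpa using M.add_mem h2 h1

end Pool.Agent.Results.MP_7bc96b_al.SupportBound
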